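import Mathlib

namespace Pool.Agent.Lib.MP_db3ceb_pr

/-- The square lattice: two vertices are adjacent when they are at Euclidean distance one. -/
def lattice : SimpleGraph (ℤ × ℤ) where
  Adj u v := (u.1 - v.1) ^ 2 + (u.2 - v.2) ^ 2 = 1
  symm := ⟨fun u v h => by rw [← h]; ring⟩
  loopless := ⟨fun u h => by simp at h⟩

/-- `C_n`: the largest length of a cycle of the graph with edge set `ω` all of whose vertices lie
in the box `[1, n]²` (zero if there is no such cycle). -/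
noncomputable def longestCycle (n : ℕ) (ω : Set (Sym2 (ℤ × ℤ))) : ℕ :=
  sSup {l | ∃ (v : ℤ × ℤ) (w : (SimpleGraph.fromEdgeSet ω).Walk v v), w.IsCycle ∧
    (∀ z ∈ w.support, 1 ≤ z.1 ∧ z.1 ≤ n ∧ 1 ≤ z.2 ∧ z.2 ≤ n) ∧ w.length = l}

end Pool.Agent.Lib.MP_db3ceb_pr
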