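import Pool.Agent.Lib.MP_db3ceb_pr.Limit
import Pool.Agent.Lib.MP_db3ceb_pr.Defs

open Set MeasureTheory ProbabilityTheory Filter Topology SimpleGraph

namespace Pool.Agent.Lib.MP_db3ceb_pr

open Pool.Agent.Lib.helper98

lemma lattice_adj {u v : V} : lattice.Adj u v ↔ adj u v := by
  change (u.1 - v.1) ^ 2 + (u.2 - v.2) ^ 2 = 1 ↔ _
  unfold adj
  constructor
  · intro h
    obtain ⟨x, hx⟩ : ∃ x, x = u.1 - v.1 := ⟨_, rfl⟩
    obtain ⟨y, hy⟩ : ∃ y, y = u.2 - v.2 := ⟨_, rfl⟩
    rw [← hx, ← hy] at h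
    have a1 : -1 ≤ x := by nlinarith [sq_nonneg y]
    have a2 : x ≤ 1 := by nlinarith [sq_nonneg y]
    have a3 : -1 ≤ y := by nlinarith [sq_nonneg x]
    have a4 : y ≤ 1 := by nlinarith [sq_nonneg x]
    interval_cases x <;> interval_cases y <;> omega
  · rintro (⟨h1, h2 | h2⟩ | ⟨h1, h2 | h2⟩) <;> rw [h1, h2] <;> ring

/-- sum of the endpoints -/
def esum : Sym2 V → V := Sym2.lift ⟨fun a b => a + b, fun _ _ => add_comm _ _⟩

open Classical in
/-- an injective index for unordered pairs -/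
noncomputable def idx (e : Sym2 V) : V :=
  if e ∈ lattice.edgeSet then esum e else (2 * ((Encodable.ofCountable (Sym2 V)).encode e : ℕ), 0)

lemma idx_adj {a b : V} (h : adj a b) : idx s(a, b) = a + b :=
  if_pos (lattice_adj.mpr h)

lemma idx_inj : Function.Injective idx := by
  have key : ∀ a b : V, adj a b → ∀ k : ℤ, a + b ≠ (2 * k, 0) := by
    intro a b h k hk
    simp only [Prod.ext_iff, Prod.fst_add, Prod.snd_add] at hk
    unfold adj at h
    omega
  intro e e'
  induction e using Sym2.ind with | h a b => ?_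
  induction e' using Sym2.ind with | h c d => ?_
  intro h
  by_cases h1 : s(a, b) ∈ lattice.edgeSet <;> by_cases h2 : s(c, d) ∈ lattice.edgeSet
  · have k1 := lattice_adj.mp h1
    have k2 := lattice_adj.mp h2
    rw [idx_adj k1, idx_adj k2] at h
    rcases adj_inj k1 k2 h with ⟨rfl, rfl⟩ | ⟨rfl, rfl⟩
    · rfl
    · exact Sym2.eq_swap
  · rw [idx_adj (lattice_adj.mp h1), idx, if_neg h2] at h
    exact (key _ _ (lattice_adj.mp h1) _ h).elim
  · rw [idx_adj (lattice_adj.mp h2), idx, if_neg h1] at h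
    exact (key _ _ (lattice_adj.mp h2) _ h.symm).elim
  · rw [idx, idx, if_neg h1, if_neg h2] at h
    have h3 := congrArg Prod.fst h
    exact (Encodable.ofCountable (Sym2 V)).encode_injective (by simp only at h3; omega)

/-- the set of open edges -/
def edges (ω : V → Prop) : Set (Sym2 V) := {e | e ∈ lattice.edgeSet ∧ ω (idx e)}

lemma fromEdgeSet_edges (ω : V → Prop) : fromEdgeSet (edges ω) = G ω := by
  ext a b
  rw [fromEdgeSet_adj]
  constructor
  · rintro ⟨⟨h1, h2⟩, -⟩
    have k := lattice_adj.mp h1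
    exact ⟨k, by rwa [idx_adj k] at h2⟩
  · rintro ⟨h1, h2⟩
    exact ⟨⟨lattice_adj.mpr h1, by rwa [idx_adj h1]⟩, h1.ne⟩

lemma longestCycle_edges (n : ℕ) (ω : V → Prop) :
    longestCycle n (edges ω) = LC ω (rect 1 n 1 n) := by
  rw [longestCycle, fromEdgeSet_edges]
  rfl

lemma measurable_edges : Measurable edges :=
  MeasurableEquiv.setOfPred.measurable.comp
    (f := fun (ω : V → Prop) e => e ∈ lattice.edgeSet ∧ ω (idx e)) (by fun_prop)

lemma map_edges (p : unitInterval) : (PP V p).map edges = setBernoulli lattice.edgeSet p := by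
  have h1 : (PP V p).map (fun ω e => ω (idx e)) = PP (Sym2 V) p :=
    Measure.map_infinitePi_infinitePi_of_inj idx_inj
  have hm : ∀ e : Sym2 V, Measurable fun P : Prop => e ∈ lattice.edgeSet ∧ P :=
    fun _ => Measurable.of_discrete
  have h2 : (PP (Sym2 V) p).map (fun ω e => e ∈ lattice.edgeSet ∧ ω e) =
      Measure.infinitePi fun e : Sym2 V => unitInterval.toNNReal p • Measure.dirac
        (e ∈ lattice.edgeSet) + unitInterval.toNNReal (unitInterval.symm p) •
          Measure.dirac False := by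
    rw [PP, Measure.infinitePi_map_pi _ (f := fun e P => e ∈ lattice.edgeSet ∧ P) hm]
    congr 1
    funext e
    rw [projIcc_val, bernoulliMeasure_def, Measure.map_add _ _ (hm e), Measure.map_smul,
      Measure.map_smul, Measure.map_dirac' (hm e), Measure.map_dirac' (hm e), and_true, and_false]
  rw [setBernoulli_eq_map, ← h2, ← h1, Measure.map_map (by fun_prop) (by fun_prop),
    Measure.map_map (by fun_prop) (by fun_prop)]
  rfl

lemma longestCycle_congr {n : ℕ} {s t : Set (Sym2 V)}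
    (h : ∀ a ∈ rect 1 n 1 n, ∀ b ∈ rect 1 n 1 n, (s(a, b) ∈ s ↔ s(a, b) ∈ t)) :
    longestCycle n s = longestCycle n t := by
  have key : ∀ {s t : Set (Sym2 V)}, (∀ a ∈ rect 1 n 1 n, ∀ b ∈ rect 1 n 1 n,
      s(a, b) ∈ s → s(a, b) ∈ t) → ∀ (v : V) (w : (fromEdgeSet s).Walk v v), w.IsCycle →
      (∀ z ∈ w.support, z ∈ rect 1 n 1 n) → ∃ w' : (fromEdgeSet t).Walk v v, w'.IsCycle ∧
        (∀ z ∈ w'.support, z ∈ rect 1 n 1 n) ∧ w'.length = w.length := by
    intro s t h v w h1 h2
    have he : ∀ e ∈ w.edges, e ∈ (fromEdgeSet t).edgeSet := by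
      intro e
      induction e using Sym2.ind with
      | h a b =>
        intro hab
        have k := (fromEdgeSet_adj _).mp (w.adj_of_mem_edges hab)
        exact (fromEdgeSet_adj _).mpr ⟨h _ (h2 _ (w.fst_mem_support_of_mem_edges hab)) _
          (h2 _ (w.snd_mem_support_of_mem_edges hab)) k.1, k.2⟩
    exact ⟨w.transfer _ he, h1.transfer he, by simpa using h2, Walk.length_transfer _ _⟩
  unfold longestCycle
  congr 1
  ext l
  constructor <;> rintro ⟨v, w, h1, h2, rfl⟩
  · exact ⟨v, key (fun a ha b hb => (h a ha b hb).mp) v w h1 h2⟩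
  · exact ⟨v, key (fun a ha b hb => (h a ha b hb).mpr) v w h1 h2⟩

lemma measurable_longestCycle (n : ℕ) : Measurable (longestCycle n) := by
  refine measurable_to_countable' fun k => ?_
  have hfin : (image2 (fun a b => s(a, b)) (rect 1 n 1 n) (rect 1 n 1 n)).Finite :=
    (rect_finite _ _ _ _).image2 _ (rect_finite _ _ _ _)
  have hd : Dep (image2 (fun a b => s(a, b)) (rect 1 n 1 n) (rect 1 n 1 n))
      {x : Sym2 V → Prop | longestCycle n {e | x e} = k} := by
    intro x y h h1
    exact (longestCycle_congr fun a ha b hb => (h _ (mem_image2_of_mem ha hb)).symm).trans h1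
  exact MeasurableEquiv.setOfPred.symm.measurable (hd.measurableSet hfin)

theorem main (p : unitInterval) (hp : 1 / 2 < (p : ℝ)) : ∃ κ : ℝ,
    TendstoInMeasure (setBernoulli lattice.edgeSet p)
      (fun n ω => (longestCycle n ω : ℝ) / (n : ℝ) ^ 2) atTop fun _ => κ := by
  obtain ⟨κ, h⟩ := lln hp p.2.2
  refine ⟨κ, tendstoInMeasure_iff_measureReal_norm.mpr fun ε hε => (h ε hε).congr fun n => ?_⟩
  have hm : MeasurableSet {ω | ε ≤ ‖(longestCycle n ω : ℝ) / (n : ℝ) ^ 2 - κ‖} :=
    measurable_longestCycle n (MeasurableSet.of_discrete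
      (s := {k : ℕ | ε ≤ ‖(k : ℝ) / (n : ℝ) ^ 2 - κ‖}))
  rw [← map_edges, map_measureReal_apply measurable_edges hm, pr]
  congr 1
  ext ω
  simp only [mem_preimage, mem_ofPred_eq, longestCycle_edges, Real.norm_eq_abs]

end Pool.Agent.Lib.MP_db3ceb_pr
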