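import Pool.Agent.Lib.MP_db3ceb_pr.Box

open Set MeasureTheory ProbabilityTheory Filter Topology

namespace Pool.Agent.Lib.MP_db3ceb_pr

open Pool.Agent.Lib.helper98

variable {ω : V → Prop} {p : ℝ}

/-- the function only depends on the coordinates in `E` -/
def Loc (E : Set V) (X : (V → Prop) → ℝ) : Prop :=
  ∀ ω ω' : V → Prop, (∀ e ∈ E, (ω e ↔ ω' e)) → X ω = X ω'

lemma Loc.eq {s : Finset V} {X : (V → Prop) → ℝ} (h : Loc s X) :
    X = (fun x : s → Prop => X fun e => ∃ h : e ∈ s, x ⟨e, h⟩) ∘ fun ω (i : s) => ω i := by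
  funext ω
  exact h _ _ fun e he => ⟨fun h => ⟨he, h⟩, fun ⟨_, h⟩ => h⟩

lemma Loc.measurable {E : Set V} {X : (V → Prop) → ℝ} (h : Loc E X) (hE : E.Finite) :
    Measurable X := by
  lift E to Finset V using hE
  rw [h.eq]
  exact Measurable.of_discrete.comp (by fun_prop)

lemma Loc.indep {E F : Set V} {X Y : (V → Prop) → ℝ} (h : Loc E X) (h' : Loc F Y) (hE : E.Finite)
    (hF : F.Finite) (hEF : Disjoint E F) : IndepFun X Y (PP V p) := by
  lift E to Finset V using hE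
  lift F to Finset V using hF
  rw [h.eq, h'.eq]
  exact ((indep_coord (ι := V) p).indepFun_finset E F (Finset.disjoint_coe.mp hEF)
    fun i => measurable_pi_apply i).comp Measurable.of_discrete Measurable.of_discrete

/-- the deficiency of the longest cycle in the square of side `m` with corner `(a, c)` -/
noncomputable def Df (m : ℕ) (a c : ℤ) (ω : V → Prop) : ℝ :=
  1 - LC ω (rect a (a + m - 1) c (c + m - 1)) / m ^ 2

lemma Df_loc (m : ℕ) (a c : ℤ) : Loc (Ed (rect a (a + m - 1) c (c + m - 1))) (Df m a c) :=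
  fun _ _ h => by rw [Df, Df, LC_congr (rect_finite _ _ _ _) h]

lemma Df_meas (m : ℕ) (a c : ℤ) : Measurable (Df m a c) :=
  (Df_loc m a c).measurable (Ed_finite (rect_finite _ _ _ _))

lemma Df_mem (m : ℕ) (a c : ℤ) (ω : V → Prop) : Df m a c ω ∈ Icc (0 : ℝ) 1 := by
  have h : (LC ω (rect a (a + m - 1) c (c + m - 1)) : ℝ) ≤ m ^ 2 := by
    rw [sq]; exact_mod_cast LC_rect_le a c m m
  have h1 : (LC ω (rect a (a + m - 1) c (c + m - 1)) : ℝ) / m ^ 2 ≤ 1 :=
    div_le_one_of_le₀ h (by positivity)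
  have h2 : (0 : ℝ) ≤ (LC ω (rect a (a + m - 1) c (c + m - 1)) : ℝ) / m ^ 2 := by positivity
  unfold Df
  constructor <;> linarith

lemma Df_memLp (m : ℕ) (a c : ℤ) : MemLp (Df m a c) 2 (PP V p) :=
  memLp_of_bounded (ae_of_all _ (Df_mem m a c)) (Df_meas m a c).aestronglyMeasurable _

lemma Df_int (m : ℕ) (a c : ℤ) : Integrable (Df m a c) (PP V p) :=
  (Df_memLp m a c).integrable one_le_two

lemma LC_shift_le (ω : V → Prop) (a b c d x y : ℤ) :
    LC (fun i => ω (i + (2 * x, 2 * y))) (rect a b c d) ≤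
      LC ω (rect (a + x) (b + x) (c + y) (d + y)) :=
  LC_map (g := fun z => z + (x, y)) (f := fun i => i + (2 * x, 2 * y))
    (fun _ _ h => by unfold adj at *; simp only [Prod.fst_add, Prod.snd_add]; omega)
    (fun _ _ => by ext <;> simp only [Prod.fst_add, Prod.snd_add] <;> ring)
    (add_left_injective _) (rect_finite _ _ _ _) (rect_finite _ _ _ _) fun z hz => by
      simp only [rect, mem_ofPred_eq, Prod.fst_add, Prod.snd_add] at *
      omega

lemma LC_shift (ω : V → Prop) (a b c d x y : ℤ) :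
    LC (fun i => ω (i + (2 * x, 2 * y))) (rect a b c d) =
      LC ω (rect (a + x) (b + x) (c + y) (d + y)) := by
  refine le_antisymm (LC_shift_le ω a b c d x y) ?_
  have h := LC_shift_le (fun i => ω (i + (2 * x, 2 * y))) (a + x) (b + x) (c + y) (d + y) (-x) (-y)
  simpa [add_assoc, Prod.mk_zero_zero] using h

/-- expected deficiency -/
noncomputable def bb (p : ℝ) (m : ℕ) : ℝ := ∫ ω, Df m 1 1 ω ∂PP V p

lemma int_Df (m : ℕ) (x y : ℤ) : ∫ ω, Df m (1 + x) (1 + y) ω ∂PP V p = bb p m := by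
  have h : (PP V p).map (fun ω i => ω (i + (2 * x, 2 * y))) = PP V p :=
    Measure.map_infinitePi_infinitePi_of_inj (add_left_injective _)
  rw [bb]
  conv_rhs => rw [← h]
  rw [integral_map (Measurable.aemeasurable (by fun_prop)) (Df_meas _ _ _).aestronglyMeasurable]
  congr 1
  funext ω
  rw [Df, Df, LC_shift, show (1 : ℤ) + m - 1 + x = 1 + x + m - 1 by ring,
    show (1 : ℤ) + m - 1 + y = 1 + y + m - 1 by ring]

lemma bb_mem (p : ℝ) (m : ℕ) : bb p m ∈ Icc (0 : ℝ) 1 := by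
  refine ⟨integral_nonneg fun ω => (Df_mem _ _ _ ω).1, ?_⟩
  have := integral_mono (μ := PP V p) (Df_int m 1 1) (integrable_const 1)
    fun ω => (Df_mem _ _ _ ω).2
  simpa [bb] using this

/-- sum of the deficiencies of the cells -/
noncomputable def SD (m m' K : ℕ) : (V → Prop) → ℝ :=
  ∑ q ∈ Finset.range K ×ˢ Finset.range K, Df m (1 + q.2 * m) (1 + q.1 * m')

lemma SD_memLp (m m' K : ℕ) : MemLp (SD m m' K) 2 (PP V p) :=
  memLp_finsetSum' _ fun _ _ => Df_memLp _ _ _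

lemma SD_nonneg (m m' K : ℕ) (ω : V → Prop) : 0 ≤ SD m m' K ω := by
  rw [SD, Finset.sum_apply]
  exact Finset.sum_nonneg fun _ _ => (Df_mem _ _ _ _).1

lemma int_SD (m m' K : ℕ) : ∫ ω, SD m m' K ω ∂PP V p = K ^ 2 * bb p m := by
  simp only [SD, Finset.sum_apply]
  rw [integral_finsetSum _ fun _ _ => Df_int _ _ _]
  simp only [int_Df, Finset.sum_const, Finset.card_product, Finset.card_range, nsmul_eq_mul]
  push_cast
  ring

lemma sep {i j m m' : ℕ} (h : i < j) (hm : m ≤ m') : (i : ℤ) * m' + m ≤ j * m' := by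
  have : (i + 1) * m' ≤ j * m' := Nat.mul_le_mul_right _ h
  have : i * m' + m ≤ j * m' := by nlinarith
  exact_mod_cast this

lemma var_SD {m m' : ℕ} (hm : m ≤ m') (K : ℕ) : Var[SD m m' K; PP V p] ≤ K ^ 2 := by
  rw [SD, IndepFun.variance_sum fun _ _ => Df_memLp _ _ _]
  · refine (Finset.sum_le_card_nsmul _ _ 1 fun q _ => ?_).trans (le_of_eq ?_)
    · exact (variance_le_sq_of_bounded (ae_of_all _ (Df_mem _ _ _))
        (Df_meas _ _ _).aemeasurable).trans (by norm_num)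
    · simp [sq]
  · rintro ⟨i, j⟩ - ⟨k, l⟩ - hne
    refine (Df_loc _ _ _).indep (Df_loc _ _ _) (Ed_finite (rect_finite _ _ _ _))
      (Ed_finite (rect_finite _ _ _ _)) (Ed_disjoint (Set.disjoint_left.mpr fun z h1 h2 => ?_))
    simp only [rect, mem_ofPred_eq] at h1 h2
    rcases lt_trichotomy i k with h | rfl | h
    · have := sep h hm; omega
    · rcases lt_trichotomy j l with h | rfl | h
      · have := sep h (le_refl m); omega
      · exact hne rfl
      · have := sep h (le_refl m); omega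
    · have := sep h hm; omega

lemma int_abs_SD {m m' K : ℕ} (hm : m ≤ m') (hK : 0 < K) :
    ∫ ω, |SD m m' K ω / K ^ 2 - bb p m| ∂PP V p ≤ 2 / K := by
  have hK' : (0 : ℝ) < K := by exact_mod_cast hK
  have hv := var_SD (p := p) hm K
  rw [variance_eq_integral (SD_memLp m m' K).aemeasurable, int_SD] at hv
  have hi : Integrable (fun ω => (SD m m' K ω - K ^ 2 * bb p m) ^ 2) (PP V p) :=
    ((SD_memLp m m' K).sub (memLp_const _)).integrable_sq
  have h1 : ∫ ω, |SD m m' K ω / K ^ 2 - bb p m| ∂PP V p ≤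
      ∫ ω, (1 / K + (SD m m' K ω - K ^ 2 * bb p m) ^ 2 / K ^ 3) ∂PP V p := by
    refine integral_mono_of_nonneg (ae_of_all _ fun _ => abs_nonneg _)
      ((integrable_const _).add (hi.div_const _)) (ae_of_all _ fun ω => ?_)
    have e : (SD m m' K ω - K ^ 2 * bb p m) ^ 2 / K ^ 3 =
        K * |SD m m' K ω / K ^ 2 - bb p m| ^ 2 := by
      rw [sq_abs]; field_simp
    simp only [e]
    generalize |SD m m' K ω / K ^ 2 - bb p m| = x
    rw [← sub_nonneg]
    have e2 : 1 / K + K * x ^ 2 - x = ((K * x) ^ 2 - K * x + 1) / K := by field_simp; ring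
    rw [e2]
    exact div_nonneg (by nlinarith [sq_nonneg (K * x - 1), sq_nonneg (K * x)]) hK'.le
  rw [integral_add (integrable_const _) (hi.div_const _), integral_const, integral_div] at h1
  simp only [probReal_univ, smul_eq_mul, one_mul] at h1
  have h2 := div_le_div_of_nonneg_right hv (show (0 : ℝ) ≤ K ^ 3 by positivity)
  have e : (K : ℝ) ^ 2 / K ^ 3 = 1 / K := by field_simp
  have e' : (2 : ℝ) / K = 1 / K + 1 / K := by ring
  linarith

lemma arith {t n K X A σ C : ℝ} (ht : 2 ≤ t) (hn : 0 < n) (hK : 0 ≤ K) (hX : 0 ≤ X) (hA : 0 ≤ A)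
    (d0 : 0 ≤ σ) (d1 : σ ≤ 1) (c7 : X ≤ n) (c8 : t * n ≤ t * X + 9 * n) (c9 : t * A ≤ 4 * n ^ 2)
    (c10 : t * (K + 1) ≤ 2 * n ^ 2)
    (two : (1 - 1 / t) * ((1 - 1 / t) * (σ * X ^ 2) - A - K) - A ≤ C + 1) :
    1 - C / n ^ 2 ≤ 1 - σ + 30 / t := by
  have ht0 : 0 < t := by linarith
  have hu : 0 < 1 / t := by positivity
  have e : t * (1 / t) = 1 := by field_simp
  have hS : 0 ≤ σ * X ^ 2 := by positivity
  have hX2 : X ^ 2 ≤ n ^ 2 := by gcongr
  have hS1 : σ * X ^ 2 ≤ n ^ 2 := by nlinarith [sq_nonneg X]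
  have f1 : σ * X ^ 2 - 2 * (1 / t) * (σ * X ^ 2) - 2 * A - K - 1 ≤ C := by
    nlinarith [mul_nonneg hu.le (add_nonneg hA hK), mul_nonneg (mul_nonneg hu.le hu.le) hS]
  have f2 := mul_le_mul_of_nonneg_left f1 ht0.le
  have e2 : t * (2 * (1 / t) * (σ * X ^ 2)) = 2 * (σ * X ^ 2) := by field_simp
  have f3 : t * (n ^ 2 - X ^ 2) ≤ 18 * n ^ 2 := by
    have : t * (n - X) * (n + X) ≤ 9 * n * (2 * n) :=
      mul_le_mul (by linarith) (by linarith) (by linarith) (by linarith)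
    nlinarith
  have f4 : σ * (t * (n ^ 2 - X ^ 2)) ≤ t * (n ^ 2 - X ^ 2) :=
    mul_le_of_le_one_left (mul_nonneg ht0.le (by linarith)) d1
  have f5 : t * (σ * n ^ 2 - C) ≤ 30 * n ^ 2 := by nlinarith
  have f6 : σ - C / n ^ 2 ≤ 30 / t := by
    rw [le_div_iff₀ ht0, show (σ - C / n ^ 2) * t = t * (σ * n ^ 2 - C) / n ^ 2 by field_simp,
      div_le_iff₀ (by positivity)]
    exact f5
  linarith

lemma pointwise {n m t : ℕ} (ht : 2 ≤ t) (hm : t ^ 4 ≤ m) (hn : m ^ 2 ≤ n) (h : ω ∈ Good n t) :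
    Df n 1 1 ω ≤ SD m (m + 2 * t + 2) (n / (m + 2 * t + 2)) ω / (n / (m + 2 * t + 2) : ℕ) ^ 2 +
      30 / t := by
  set m' := m + 2 * t + 2 with hm'
  set K := n / m' with hK
  have a0 : t ^ 3 ≤ m := (Nat.pow_le_pow_right (by omega) (by norm_num)).trans hm
  have a1 : t ^ 2 ≤ m := (Nat.pow_le_pow_right (by omega) (by norm_num)).trans hm
  have a2 : 2 * t ≤ m := by nlinarith
  have a3 : m' ≤ n := by nlinarith
  have a4 : 0 < K := Nat.div_pos a3 (by omega)
  have a5 : K * m' ≤ n := Nat.div_mul_le_self _ _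
  have a6 : n < K * m' + m' := Nat.lt_div_mul_add (by omega)
  have a7 : K * m ≤ n := (Nat.mul_le_mul_left _ (by omega)).trans a5
  have a8 : t * n ≤ t * (K * m) + 9 * n := by
    have b1 : t * m' ≤ 5 * n := by nlinarith
    have b2 : t ^ 2 * K ≤ n := by nlinarith
    have b3 : t * (K * m') ≤ t * (K * m) + 4 * (t ^ 2 * K) := by
      have : t * K ≤ t ^ 2 * K := by gcongr; nlinarith
      rw [hm']; nlinarith
    nlinarith
  have a9 : t * (K ^ 2 * ((t + 1) * (t + 1) * m)) ≤ 4 * n ^ 2 := by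
    have b1 : t * ((t + 1) * (t + 1)) ≤ 4 * m := by nlinarith
    have b2 : (K * m) ^ 2 ≤ n ^ 2 := by gcongr
    calc t * (K ^ 2 * ((t + 1) * (t + 1) * m)) = K ^ 2 * m * (t * ((t + 1) * (t + 1))) := by ring
      _ ≤ K ^ 2 * m * (4 * m) := by gcongr
      _ = 4 * (K * m) ^ 2 := by ring
      _ ≤ _ := by gcongr
  have a10 : t * (K + 1) ≤ 2 * n ^ 2 := by
    have b1 : K ≤ n := Nat.div_le_self _ _
    have b2 : t ≤ n := by omega
    nlinarith
  have two := two_level h (N := t) (by omega) (by omega) a4 hm' a5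
  have eS : SD m m' K ω = K ^ 2 - (∑ i ∈ Finset.range K, ∑ j ∈ Finset.range K,
      (LC ω (cell m m' i j) : ℝ)) / m ^ 2 := by
    simp only [SD, Finset.sum_apply, Finset.sum_product, Df, cell, Finset.sum_sub_distrib,
      Finset.sum_const, Finset.card_range, nsmul_eq_mul, Finset.sum_div, Finset.card_product,
      Nat.cast_mul, mul_one, sq (K : ℝ)]
  have hS0 := SD_nonneg m m' K ω
  have hS1 : 0 ≤ ∑ i ∈ Finset.range K, ∑ j ∈ Finset.range K, (LC ω (cell m m' i j) : ℝ) := by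
    positivity
  rw [eS] at hS0 ⊢
  rw [Df, show (1 : ℤ) + n - 1 = n by ring]
  generalize ∑ i ∈ Finset.range K, ∑ j ∈ Finset.range K, (LC ω (cell m m' i j) : ℝ) = S at *
  generalize (LC ω (rect 1 n 1 n) : ℝ) = C at *
  have c0 : (0 : ℝ) < K := by exact_mod_cast a4
  have c1 : (0 : ℝ) < m := by exact_mod_cast (show 0 < m by omega)
  have c2 : (0 : ℝ) < n := by exact_mod_cast (show 0 < n by omega)
  have c3 : (2 : ℝ) ≤ t := by exact_mod_cast ht
  have c7 : (K : ℝ) * m ≤ n := by exact_mod_cast a7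
  have c8 : (t : ℝ) * n ≤ t * (K * m) + 9 * n := by exact_mod_cast a8
  have c9 : (t : ℝ) * (K ^ 2 * ((t + 1) * (t + 1) * m)) ≤ 4 * n ^ 2 := by exact_mod_cast a9
  have c10 : (t : ℝ) * (K + 1) ≤ 2 * n ^ 2 := by exact_mod_cast a10
  obtain ⟨σ, rfl⟩ : ∃ σ : ℝ, S = σ * (K * m) ^ 2 := ⟨S / (K * m) ^ 2, by field_simp⟩
  have d0 : 0 ≤ σ := nonneg_of_mul_nonneg_left hS1 (by positivity)
  have e1 : σ * (K * m) ^ 2 / m ^ 2 = σ * K ^ 2 := by field_simp
  rw [e1] at hS0 ⊢
  have d1 : σ ≤ 1 := by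
    by_contra hc
    nlinarith [sq_pos_of_pos c0]
  have e2 : ((K : ℝ) ^ 2 - σ * K ^ 2) / K ^ 2 = 1 - σ := by field_simp
  rw [e2]
  exact arith c3 c2 c0.le (by positivity) (by positivity) d0 d1 c7 c8 c9 c10 two

end Pool.Agent.Lib.MP_db3ceb_pr
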