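import Pool.Agent.Lib.MP_db3ceb_pr.Glue

open Set SimpleGraph

namespace Pool.Agent.Lib.MP_db3ceb_pr

open Pool.Agent.Lib.helper98

variable {ω : V → Prop}

lemma LC_swap_le (ω : V → Prop) (a b c d : ℤ) :
    LC (fun i => ω i.swap) (rect a b c d) ≤ LC ω (rect c d a b) :=
  LC_map (g := Prod.swap) (f := Prod.swap) (fun _ _ => adj_swap) (fun _ _ => rfl)
    Prod.swap_injective (rect_finite _ _ _ _) (rect_finite _ _ _ _) fun z hz => by
      simp only [rect, mem_ofPred_eq, Prod.fst_swap, Prod.snd_swap] at *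
      omega

lemma LC_swap (ω : V → Prop) (a b c d : ℤ) :
    LC (fun i => ω i.swap) (rect a b c d) = LC ω (rect c d a b) :=
  le_antisymm (LC_swap_le ω a b c d) (LC_swap_le (fun i => ω i.swap) c d a b)

lemma conn_swap {R S : Set V} {u v : V} (h : Conn ω R u v) (hR : ∀ z ∈ R, z.swap ∈ S) :
    Conn (fun i => ω i.swap) S u.swap v.swap :=
  Conn.map (ω := fun i => ω i.swap) (g := Prod.swap) (f := Prod.swap) (fun _ _ => adj_swap)
    (fun _ _ => rfl) hR h

/-- all strips of the box are crossed -/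
def Good (n W : ℕ) : Set (V → Prop) :=
  {ω | ∀ s : ℤ, 1 ≤ s → s + W ≤ n → ω ∈ TB s (s + W) 1 n ∧ ω ∈ LR 1 n s (s + W)}

lemma Good.vc {n W : ℕ} (h : ω ∈ Good n W) : VC ω 1 n 1 n W := by
  intro s h1 h2
  obtain ⟨x, hx, y, hy, k⟩ := (h s h1 h2).1
  exact ⟨y, x, le_of_eq hy, ge_of_eq hx, k.symm.mono fun z hz => ⟨hz.1, hz.2.1⟩⟩

lemma Good.hc {n W : ℕ} (h : ω ∈ Good n W) {s x : ℤ} (h1 : 1 ≤ s) (h2 : s + W ≤ n) (hx : x ≤ n) :
    HC ω 1 x s W := by
  obtain ⟨x, hx', y, hy, k⟩ := (h s h1 h2).2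
  exact ⟨x, y, le_of_eq hx', hx.trans (ge_of_eq hy), k.mono fun z hz => hz.2.2⟩

lemma Good.vc' {n W : ℕ} (h : ω ∈ Good n W) : VC (fun i => ω i.swap) 1 n 1 n W := by
  intro s h1 h2
  obtain ⟨x, y, a, b, k⟩ := Good.hc h h1 h2 le_rfl
  exact ⟨x.swap, y.swap, a, b, conn_swap k fun z hz => hz⟩

lemma Good.hc' {n W : ℕ} (h : ω ∈ Good n W) {s x : ℤ} (h1 : 1 ≤ s) (h2 : s + W ≤ n) (hx : x ≤ n) :
    HC (fun i => ω i.swap) 1 x s W := by
  obtain ⟨x, y, a, b, k⟩ := Good.vc h s h1 h2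
  exact ⟨x.swap, y.swap, a, hx.trans b, conn_swap k fun z hz => hz⟩

/-- the cell in column `j` and row `i` -/
def cell (m m' i j : ℕ) : Set V :=
  rect (1 + j * m) (1 + j * m + m - 1) (1 + i * m') (1 + i * m' + m - 1)

lemma two_level {n W N m m' K : ℕ} (h : ω ∈ Good n W) (hN : 0 < N) (hm : 0 < m) (hK : 0 < K)
    (hm' : m' = m + 2 * W + 2) (hn : K * m' ≤ n) :
    (1 - 1 / N : ℝ) * ((1 - 1 / N) * ∑ i ∈ Finset.range K, ∑ j ∈ Finset.range K,
      (LC ω (cell m m' i j) : ℝ) - K ^ 2 * ((N + 1) * (W + 1) * m) - K) -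
        K ^ 2 * ((N + 1) * (W + 1) * m) ≤ LC ω (rect 1 n 1 n) + 1 := by
  have hn' : (K : ℤ) * m' ≤ n := by exact_mod_cast hn
  have hm'' : (m' : ℤ) = m + 2 * W + 2 := by exact_mod_cast hm'
  have hK' : (1 : ℤ) ≤ K := by exact_mod_cast hK
  have hW : (0 : ℤ) ≤ W := by positivity
  have hKm : (K : ℤ) * m + 2 * W + 2 ≤ n := by rw [hm''] at hn'; nlinarith
  have hN1 : (0 : ℝ) ≤ 1 - 1 / N := by
    have : (1 : ℝ) ≤ N := by exact_mod_cast hN
    have := one_div_le_one_div_of_le one_pos this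
    linarith
  have e1 : ((K * m : ℕ) : ℤ) = K * m := by push_cast; rfl
  have hKm0 : (0 : ℤ) ≤ K * m := by positivity
  have big := row (ω := fun i => ω i.swap) (x0 := 1) (y0 := 1) (W := W) (h := K * m) (m := m')
    (K := K) hN (by positivity) ((Good.vc' h).mono le_rfl (by omega) le_rfl (by omega))
    (Good.hc' h (by omega) (by omega) (by omega)) (Good.hc' h (by omega) (by omega) (by omega))
  have small : ∀ i ∈ Finset.range K, (1 - 1 / N : ℝ) * ∑ j ∈ Finset.range K,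
      (LC ω (cell m m' i j) : ℝ) - K * ((N + 1) * (W + 1) * m) - 1 ≤
      LC (fun i => ω i.swap) (rect (1 + i * m') (1 + i * m' + m' - 1) 1 (1 + (K * m : ℕ) - 1)) := by
    intro i hi
    have a1 : (i + 1) * m' ≤ K * m' := Nat.mul_le_mul_right _ (Finset.mem_range.mp hi)
    have a2 : ((i + 1) * m' : ℤ) ≤ K * m' := by exact_mod_cast a1
    have a3 : (0 : ℤ) ≤ i * m' := by positivity
    have a4 : (i : ℤ) * m' + m' ≤ n := by linarith
    have r := row (ω := ω) (x0 := 1) (y0 := 1 + i * m') (W := W) (h := m) (m := m)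
      (K := K) hN hm ((Good.vc h).mono le_rfl (by omega) (by omega) (by omega))
      (Good.hc h (by omega) (by omega) (by omega)) (Good.hc h (by omega) (by omega) (by omega))
    rw [LC_swap, e1, show 1 + (i : ℤ) * m' + m' - 1 = 1 + i * m' + m + 2 * W + 1 by omega]
    rw [Finset.sum_sub_distrib, ← Finset.mul_sum, Finset.sum_const, Finset.card_range,
      nsmul_eq_mul] at r
    unfold cell
    linarith
  have s2 := Finset.sum_le_sum small
  rw [Finset.sum_sub_distrib, Finset.sum_sub_distrib, ← Finset.mul_sum, Finset.sum_const,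
    Finset.sum_const, Finset.card_range, nsmul_eq_mul, nsmul_eq_mul] at s2
  rw [Finset.sum_sub_distrib, ← Finset.mul_sum, Finset.sum_const, Finset.card_range,
    nsmul_eq_mul, LC_swap] at big
  have s3 : LC ω (rect 1 (1 + (K * m : ℕ) + 2 * W + 1) 1 (1 + K * m' - 1)) ≤ LC ω (rect 1 n 1 n) :=
    LC_mono (rect_finite _ _ _ _) fun z hz => by
      simp only [rect, mem_ofPred_eq] at *
      omega
  have s4 : (LC ω (rect 1 (1 + (K * m : ℕ) + 2 * W + 1) 1 (1 + K * m' - 1)) : ℝ) ≤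
      LC ω (rect 1 n 1 n) := by exact_mod_cast s3
  have s5 := mul_le_mul_of_nonneg_left s2 hN1
  push_cast at big s4 s5 ⊢
  nlinarith

lemma measurableSet_Good (n W : ℕ) : MeasurableSet (Good n W) := by
  have : Good n W = ⋂ s : ℤ, ⋂ (_ : 1 ≤ s), ⋂ (_ : s + W ≤ n),
      TB s (s + W) 1 n ∩ LR 1 n s (s + W) := by
    ext ω; simp [Good]
  rw [this]
  exact MeasurableSet.iInter fun s => MeasurableSet.iInter fun _ => MeasurableSet.iInter fun _ =>
    (measurableSet_TB _ _ _ _).inter (measurableSet_LR _ _ _ _)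

lemma pr_bad {p : ℝ} (hp0 : 0 ≤ p) (hp1 : p ≤ 1) {n : ℕ} (hn : 0 < n) (W : ℕ) :
    pr p (Good n W)ᶜ ≤ 2 * n ^ 2 * θ (1 - p) (W + 1 : ℕ) := by
  have h1 : pr p (Good n W)ᶜ ≤
      ∑ s ∈ Finset.Icc (1 : ℤ) n, pr p ((TB s (s + W) 1 n)ᶜ ∪ (LR 1 n s (s + W))ᶜ) := by
    refine pr_le_sum _ _ fun ω hω => ?_
    simp only [Good, mem_compl_iff, mem_ofPred_eq, not_forall] at hω
    obtain ⟨s, a, b, c⟩ := hω
    refine ⟨s, Finset.mem_Icc.mpr ⟨a, by omega⟩, ?_⟩
    rw [← compl_inter]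
    exact c
  have h2 : ∀ s ∈ Finset.Icc (1 : ℤ) n, pr p ((TB s (s + W) 1 n)ᶜ ∪ (LR 1 n s (s + W))ᶜ) ≤
      2 * n * θ (1 - p) (W + 1 : ℕ) := by
    intro s _
    have a := pr_not_TB hp0 hp1 (a := s) (b := s + W) (c := 1) (d := n) (by omega) (by omega)
    have b := pr_not_LR hp0 hp1 (a := 1) (b := n) (c := s) (d := s + W) (by omega) (by omega)
    rw [show s + W - s + 1 = (W + 1 : ℕ) by omega] at a b
    have c := θ_nonneg (1 - p) (W + 1 : ℕ)
    have d := pr_union_le p (TB s (s + W) 1 n)ᶜ (LR 1 n s (s + W))ᶜ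
    rw [Int.cast_sub, Int.cast_natCast, Int.cast_one] at a b
    nlinarith
  refine h1.trans ((Finset.sum_le_card_nsmul _ _ _ h2).trans (le_of_eq ?_))
  rw [nsmul_eq_mul, Int.card_Icc]
  simp only [add_sub_cancel_right, Int.toNat_natCast]
  ring

end Pool.Agent.Lib.MP_db3ceb_pr
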