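import Pool.Agent.Lib.MP_db3ceb_pr.Graph

open Set SimpleGraph

namespace Pool.Agent.Lib.MP_db3ceb_pr

open Pool.Agent.Lib.helper98

variable {ω : V → Prop}

/-- the part of `R` off the list `l`, together with `a` -/
def avoid (R : Set V) (l : List V) (a : V) : Set V := {z | z ∈ R ∧ (z ∉ l ∨ z = a)}

/-- a long path whose two ends are joined to the row `y3` through two vertical strips -/
def St (ω : V → Prop) (x0 r y0 y1 y2 y3 W : ℤ) (n : ℕ) : Prop :=
  ∃ (s t : ℤ) (a b ta tb : V) (P : (G ω).Walk a b), P.IsPath ∧ n ≤ P.length ∧ x0 ≤ s ∧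
    s + W < t ∧ t + W ≤ r ∧ (∀ z ∈ P.support, z ∈ rect x0 r y0 y2 ∧ (y1 < z.2 → z.1 < t)) ∧
    a.2 ≤ y1 ∧ b.2 ≤ y1 ∧ ta.2 = y3 ∧ tb.2 = y3 ∧
    Conn ω (avoid (rect s (s + W) y0 y3) P.support a) a ta ∧
    Conn ω (avoid (rect t (t + W) y0 y3) P.support b) b tb

lemma St.weaken {x0 r y0 y1 y2 y3 W x0' r' y2' : ℤ} {n : ℕ} (h : St ω x0 r y0 y1 y2 y3 W n)
    (h1 : x0' ≤ x0) (h2 : r ≤ r') (h3 : y2 ≤ y2') : St ω x0' r' y0 y1 y2' y3 W n := by
  obtain ⟨s, t, a, b, ta, tb, P, k1, k2, k3, k4, k5, k6, k7⟩ := h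
  refine ⟨s, t, a, b, ta, tb, P, k1, k2, by omega, k4, by omega, fun z hz => ⟨?_, (k6 z hz).2⟩, k7⟩
  have := (k6 z hz).1
  simp only [rect, mem_ofPred_eq] at *
  omega

lemma connector {A B Γ : Set V} {a b ta tb u v : V} {sa sb W c d : ℤ} (hW : 0 ≤ W) (hs : sa ≤ sb)
    (hA : Conn ω A a ta) (cA : ∀ z ∈ A, sa ≤ z.1 ∧ z.1 ≤ sa + W) (ha : a.2 ≤ c) (hta : d ≤ ta.2)
    (hB : Conn ω B b tb) (cB : ∀ z ∈ B, sb ≤ z.1 ∧ z.1 ≤ sb + W) (hb : b.2 ≤ c) (htb : d ≤ tb.2)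
    (hΓ : Conn ω Γ u v) (cΓ : ∀ z ∈ Γ, c ≤ z.2 ∧ z.2 ≤ d) (hu : u.1 ≤ sa) (hv : sb + W ≤ v.1) :
    Conn ω (A ∪ B ∪ (Γ ∩ {z | sa ≤ z.1 ∧ z.1 ≤ sb + W})) a b := by
  obtain ⟨u', v', e1, e2, k⟩ := sub_cols hΓ (s := sa) (t := sb + W) (by omega) hu hv
  obtain ⟨z1, p1, q1⟩ := cross_meet (a := sa) (b := sa + W) k (fun z hz => cΓ z hz.1) e1.le
    (by omega) hA.symm cA hta ha
  obtain ⟨z2, p2, q2⟩ := cross_meet (a := sb) (b := sb + W) k (fun z hz => cΓ z hz.1) (by omega)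
    e2.ge hB.symm cB htb hb
  exact (((hA.trans q1).mono (subset_union_left.trans subset_union_left)).trans
    ((p1.symm.trans p2).mono subset_union_right)).trans
    ((q2.symm.trans hB.symm).mono (subset_union_right.trans subset_union_left))

lemma snd_lip : ∀ a b : V, adj a b → b.2 ≤ a.2 + 1 := fun a b h => by unfold adj at h; omega

lemma St.merge {x0 r l r' y0 y1 y2 y3 W : ℤ} {n n' : ℕ} (hW : 0 ≤ W)
    (h : St ω x0 r y0 y1 y2 y3 W n) (h' : St ω l r' y0 y1 y1 y3 W n') (hrl : r < l)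
    (h01 : y0 ≤ y1) (h12 : y1 < y2) (h23 : y2 ≤ y3) {Γ : Set V} {u v : V} (hΓ : Conn ω Γ u v)
    (cΓ : ∀ z ∈ Γ, y1 + 1 ≤ z.2 ∧ z.2 ≤ y2) (hu : u.1 ≤ x0) (hv : r' ≤ v.1) :
    St ω x0 r' y0 y1 y2 y3 W (n + n') := by
  obtain ⟨s, t, a, b, ta, tb, P, k1, k2, k3, k4, k5, k6, k7, k8, k9, k10, k11, k12⟩ := h
  obtain ⟨s', t', a', b', ta', tb', P', j1, j2, j3, j4, j5, j6, j7, j8, j9, j10, j11, j12⟩ := h'
  obtain ⟨t1, e1, c1⟩ := conn_level snd_lip k12 (y := y2) (by omega) (by omega)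
  obtain ⟨t2, e2, c2⟩ := conn_level snd_lip j11 (y := y2) (by omega) (by omega)
  have c3 := connector (sa := t) (sb := s') (c := y1 + 1) (d := y2) hW (by omega) c1
    (fun z hz => ⟨hz.1.1.1, hz.1.1.2.1⟩) (by omega) e1.ge c2
    (fun z hz => ⟨hz.1.1.1, hz.1.1.2.1⟩) (by omega) e2.ge hΓ cΓ (by omega) (by omega)
  obtain ⟨Q, q1, q2⟩ := exists_path c3
  have kP : ∀ z ∈ P.support, x0 ≤ z.1 ∧ z.1 ≤ r ∧ y0 ≤ z.2 ∧ z.2 ≤ y2 ∧ (y1 < z.2 → z.1 < t) :=
    fun z hz => ⟨(k6 z hz).1.1, (k6 z hz).1.2.1, (k6 z hz).1.2.2.1, (k6 z hz).1.2.2.2, (k6 z hz).2⟩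
  have kP' : ∀ z ∈ P'.support, l ≤ z.1 ∧ z.1 ≤ r' ∧ y0 ≤ z.2 ∧ z.2 ≤ y1 := fun z hz => (j6 z hz).1
  have kQ : ∀ z ∈ Q.support, (t ≤ z.1 ∧ z.1 ≤ s' + W ∧ y0 ≤ z.2 ∧ z.2 ≤ y2) ∧
      (z ∈ P.support → z = b) ∧ (z ∈ P'.support → z = a') := by
    intro z hz
    rcases q2 z hz with (⟨⟨f1, f2⟩, f3⟩ | ⟨⟨f1, f2⟩, f3⟩) | ⟨f1, f2⟩
    · simp only [rect, mem_ofPred_eq] at f1 f3
      exact ⟨by omega, fun h => f2.resolve_left (not_not.mpr h),
        fun h => by have := kP' z h; omega⟩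
    · simp only [rect, mem_ofPred_eq] at f1 f3
      exact ⟨by omega, fun h => by have := kP z h; omega,
        fun h => f2.resolve_left (not_not.mpr h)⟩
    · have f3 := cΓ z f1
      simp only [mem_ofPred_eq] at f2
      exact ⟨by omega, fun h => by have := kP z h; omega, fun h => by have := kP' z h; omega⟩
  refine ⟨s, t', a, b', ta, tb', (P.append Q).append P', ?_, ?_, k3, by omega, j5, ?_, k7, j8, k9,
    j10, ?_, ?_⟩
  · refine path_append (path_append k1 q1 fun z h1 h2 => (kQ z h2).2.1 h1) j1 fun z h1 h2 => ?_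
    rcases (Walk.mem_support_append_iff _ _).mp h1 with h | h
    · have := kP z h; have := kP' z h2; omega
    · exact (kQ z h).2.2 h2
  · rw [Walk.length_append, Walk.length_append]; omega
  · intro z hz
    simp only [Walk.mem_support_append_iff] at hz
    simp only [rect, mem_ofPred_eq]
    rcases hz with (h | h) | h
    · have := kP z h; omega
    · have := (kQ z h).1; omega
    · have := kP' z h; omega
  · refine k11.mono fun z hz => ⟨hz.1, hz.2.imp_left fun h1 h2 => ?_⟩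
    have f1 := hz.1
    simp only [rect, mem_ofPred_eq] at f1
    simp only [Walk.mem_support_append_iff] at h2
    rcases h2 with (h | h) | h
    · exact h1 h
    · have := (kQ z h).1; omega
    · have := kP' z h; omega
  · refine j12.mono fun z hz => ⟨hz.1, hz.2.imp_left fun h1 h2 => ?_⟩
    have f1 := hz.1
    simp only [rect, mem_ofPred_eq] at f1
    simp only [Walk.mem_support_append_iff] at h2
    rcases h2 with (h | h) | h
    · have := kP z h; omega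
    · have := (kQ z h).1; omega
    · exact h1 h

lemma walk_row_le {a b : V} (Q : (G ω).Walk a b) : |a.1 - b.1| ≤ Q.length := by
  induction Q with
  | nil => simp
  | cons h Q ih =>
    have := h.1
    unfold adj at this
    rw [Walk.length_cons]
    rw [abs_le] at ih ⊢
    push_cast
    omega

lemma St.close {x0 r y0 y1 y2 y3 W : ℤ} {n : ℕ} (hW : 0 ≤ W) (h : St ω x0 r y0 y1 y2 y3 W n)
    (h01 : y0 ≤ y1) (h12 : y1 ≤ y2) (h23 : y2 < y3) {Γ : Set V} {u v : V} (hΓ : Conn ω Γ u v)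
    (cΓ : ∀ z ∈ Γ, y2 + 1 ≤ z.2 ∧ z.2 ≤ y3) (hu : u.1 ≤ x0) (hv : r ≤ v.1) :
    n ≤ LC ω (rect x0 r y0 y3) + 1 := by
  obtain ⟨s, t, a, b, ta, tb, P, k1, k2, k3, k4, k5, k6, k7, k8, k9, k10, k11, k12⟩ := h
  have c3 := connector (sa := s) (sb := t) (c := y2 + 1) (d := y3) hW (by omega) k11
    (fun z hz => ⟨hz.1.1, hz.1.2.1⟩) (by omega) k9.ge k12
    (fun z hz => ⟨hz.1.1, hz.1.2.1⟩) (by omega) k10.ge hΓ cΓ (by omega) (by omega)
  obtain ⟨Q, q1, q2⟩ := exists_path c3.symm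
  have kP : ∀ z ∈ P.support, x0 ≤ z.1 ∧ z.1 ≤ r ∧ y0 ≤ z.2 ∧ z.2 ≤ y2 := fun z hz => (k6 z hz).1
  have kQ : ∀ z ∈ Q.support, z ∈ rect x0 r y0 y3 ∧ (z ∈ P.support → z = a ∨ z = b) := by
    intro z hz
    simp only [rect, mem_ofPred_eq]
    rcases q2 z hz with (⟨f1, f2⟩ | ⟨f1, f2⟩) | ⟨f1, f2⟩
    · simp only [rect, mem_ofPred_eq] at f1
      exact ⟨by omega, fun h => Or.inl (f2.resolve_left (not_not.mpr h))⟩
    · simp only [rect, mem_ofPred_eq] at f1
      exact ⟨by omega, fun h => Or.inr (f2.resolve_left (not_not.mpr h))⟩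
    · have f3 := cΓ z f1
      simp only [mem_ofPred_eq] at f2
      exact ⟨by omega, fun h => by have := kP z h; omega⟩
  by_cases hn : 1 < P.length
  · have hc : (P.append Q).IsCycle := by
      refine k1.isCycle_append q1 (fun z h1 h2 => ?_) (Or.inl hn)
      rcases (kQ z (List.mem_of_mem_tail h2)).2 (List.mem_of_mem_tail h1) with rfl | rfl
      · have := k1.support_nodup
        rw [← Walk.cons_tail_support, List.nodup_cons] at this
        exact this.1 h1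
      · have := q1.support_nodup
        rw [← Walk.cons_tail_support, List.nodup_cons] at this
        exact this.1 h2
    have := le_LC (rect_finite x0 r y0 y3) hc (by
      intro z hz
      rcases (Walk.mem_support_append_iff _ _).mp hz with h | h
      · have := kP z h
        simp only [rect, mem_ofPred_eq]; omega
      · exact (kQ z h).1)
    rw [Walk.length_append] at this
    omega
  · omega

/-- vertical crossings of all strips -/
def VC (ω : V → Prop) (x0 x1 y0 y3 W : ℤ) : Prop :=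
  ∀ s, x0 ≤ s → s + W ≤ x1 → ∃ x y : V, x.2 ≤ y0 ∧ y3 ≤ y.2 ∧
    Conn ω {z | s ≤ z.1 ∧ z.1 ≤ s + W} x y

lemma VC.mono {x0 x1 y0 y3 W x0' x1' y0' y3' : ℤ} (h : VC ω x0 x1 y0 y3 W) (h1 : x0 ≤ x0')
    (h2 : x1' ≤ x1) (h3 : y0 ≤ y0') (h4 : y3' ≤ y3) : VC ω x0' x1' y0' y3' W := by
  intro s a b
  obtain ⟨x, y, k1, k2, k3⟩ := h s (by omega) (by omega)
  exact ⟨x, y, by omega, by omega, k3⟩

lemma hook {l r y0 y1 y3 : ℤ} {W N h : ℕ} (hN : 0 < N) (hy : y1 = y0 + h - 1) (h13 : y1 < y3)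
    (hV : VC ω l r y0 y3 W) : ∃ n : ℕ, (n = 0 ∨ St ω l r y0 y1 y1 y3 W n) ∧
      N * LC ω (rect l r y0 y1) ≤ N * n + LC ω (rect l r y0 y1) + N * ((N + 1) * (W + 1) * h) := by
  classical
  rcases LC_spec (ω := ω) (rect_finite l r y0 y1) with h0 | ⟨v, w, hw, hs, hl⟩
  · exact ⟨0, Or.inl rfl, by simp [h0]⟩
  rw [← hl]
  obtain ⟨u, hu, hmin⟩ := Finset.exists_min_image w.support.toFinset (fun z => z.1)
    ⟨v, by simp⟩
  simp only [List.mem_toFinset] at hu hmin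
  have hs' : ∀ z ∈ w.support, l ≤ z.1 ∧ z.1 ≤ r ∧ y0 ≤ z.2 ∧ z.2 ≤ y1 := hs
  by_cases hwide : ∃ u' ∈ w.support, u.1 + ((N + 1) * (W + 1) : ℕ) - 1 ≤ u'.1
  swap
  · push Not at hwide
    refine ⟨0, Or.inl rfl, ?_⟩
    have h1 := le_LC (rect_finite u.1 (u.1 + ((N + 1) * (W + 1) : ℕ) - 1) y0 (y0 + h - 1)) hw (by
      intro z hz
      have := hmin z hz; have := hwide z hz; have := hs' z hz
      simp only [rect, mem_ofPred_eq]; omega)
    have h2 := h1.trans (LC_rect_le _ _ _ _)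
    have := Nat.mul_le_mul_left N h2
    omega
  obtain ⟨u', hu', hwide⟩ := hwide
  have cC : Conn ω {z | z ∈ w.support} u u' :=
    (conn_of_walk w (fun _ h => h) hu).symm.trans (conn_of_walk w (fun _ h => h) hu')
  let st : Fin (N + 1) → ℤ := fun i => u.1 + (i : ℕ) * (W + 1)
  have hst : ∀ i, u.1 ≤ st i ∧ st i + W ≤ u'.1 := by
    intro i
    have h1 : ((i : ℕ) + 1) * (W + 1) ≤ (N + 1) * (W + 1) := Nat.mul_le_mul_right _ i.2
    have h2 : (((i : ℕ) + 1) * (W + 1) : ℤ) ≤ ((N + 1) * (W + 1) : ℕ) := by exact_mod_cast h1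
    have h3 : (0 : ℤ) ≤ (i : ℕ) * (W + 1) := by positivity
    simp only [st]
    constructor <;> nlinarith
  have hlt : ∀ i j, i < j → st i + W < st j := by
    intro i j hij
    have h1 : ((i : ℕ) + 1 : ℤ) ≤ (j : ℕ) := by exact_mod_cast hij
    simp only [st]
    nlinarith
  have ex : ∀ i, ∃ a ∈ w.support, ∃ ta : V, ta.2 = y3 ∧
      Conn ω (avoid (rect (st i) (st i + W) y0 y3) w.support a) a ta := by
    intro i
    obtain ⟨x, y, k1, k2, k3⟩ := hV (st i) ((hs' u hu).1.trans (hst i).1)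
      ((hst i).2.trans (hs' u' hu').2.1)
    obtain ⟨x', y', e1, e2, k4⟩ := sub_rows k3 (s := y0) (t := y3)
      (by have := hs' u hu; omega) k1 k2
    rcases k4.symm.first_hit {z | z ∈ w.support} with k5 | ⟨a, ha, k5, k6⟩
    · obtain ⟨z, z1, z2⟩ := cross_meet (a := st i) (b := st i + W) (c := y0) (d := y3) cC
        (fun z hz => by have := hs' z hz; omega) (hst i).1 (hst i).2 k5
        (fun z hz => hz.1.1) e2.ge e1.le
      exact (z2.right_mem.2 z1.right_mem).elim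
    · refine ⟨a, ha, y', e2, k5.symm.mono ?_⟩
      rintro z (rfl | hz)
      · have := k6.left_mem
        exact ⟨⟨this.1.1, this.1.2, this.2.1, this.2.2⟩, Or.inr rfl⟩
      · exact ⟨⟨hz.1.1.1, hz.1.1.2, hz.1.2.1, hz.1.2.2⟩, Or.inl hz.2⟩
  choose f hf ta hta hc using ex
  have hcol : ∀ i, st i ≤ (f i).1 ∧ (f i).1 ≤ st i + W := fun i =>
    ⟨(hc i).left_mem.1.1, (hc i).left_mem.1.2.1⟩
  have hinj : Function.Injective f := by
    intro i j hij
    by_contra hne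
    have a1 := hcol i
    have a2 := hcol j
    rw [hij] at a1
    rcases lt_or_gt_of_ne hne with h | h
    · have := hlt i j h; omega
    · have := hlt j i h; omega
  obtain ⟨i, j, hij, P, p1, p2, p3⟩ := long_arc hw hN f hinj hf
  refine ⟨P.length, Or.inr ⟨st i, st j, f i, f j, ta i, ta j, P, p1, le_rfl,
    (hs' u hu).1.trans (hst i).1, hlt i j hij, (hst j).2.trans (hs' u' hu').2.1, ?_,
    (hs' _ (hf i)).2.2.2, (hs' _ (hf j)).2.2.2, hta i, hta j, ?_, ?_⟩, by omega⟩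
  · intro z hz
    have := hs' z (p2 z hz)
    exact ⟨this, fun h => by omega⟩
  · exact (hc i).mono fun z hz => ⟨hz.1, hz.2.imp_left fun h1 h2 => h1 (p2 z h2)⟩
  · exact (hc j).mono fun z hz => ⟨hz.1, hz.2.imp_left fun h1 h2 => h1 (p2 z h2)⟩

/-- horizontal crossing of a strip -/
def HC (ω : V → Prop) (x0 x1 c W : ℤ) : Prop :=
  ∃ u v : V, u.1 ≤ x0 ∧ x1 ≤ v.1 ∧ Conn ω {z | c ≤ z.2 ∧ z.2 ≤ c + W} u v

lemma row {x0 y0 : ℤ} {W N h m K : ℕ} (hN : 0 < N) (hh : 0 < h)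
    (hV : VC ω x0 (x0 + K * m - 1) y0 (y0 + h + 2 * W + 1) W)
    (h1 : HC ω x0 (x0 + K * m - 1) (y0 + h) W) (h2 : HC ω x0 (x0 + K * m - 1) (y0 + h + W + 1) W) :
    ∑ j ∈ Finset.range K, ((1 - 1 / N : ℝ) *
        LC ω (rect (x0 + j * m) (x0 + j * m + m - 1) y0 (y0 + h - 1)) - (N + 1) * (W + 1) * h) ≤
      LC ω (rect x0 (x0 + K * m - 1) y0 (y0 + h + 2 * W + 1)) + 1 := by
  have ex : ∀ j : ℕ, j < K → ∃ n : ℕ, (n = 0 ∨ St ω (x0 + j * m) (x0 + j * m + m - 1) y0 (y0 + h - 1)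
      (y0 + h - 1) (y0 + h + 2 * W + 1) W n) ∧
      (1 - 1 / N : ℝ) * LC ω (rect (x0 + j * m) (x0 + j * m + m - 1) y0 (y0 + h - 1)) -
        (N + 1) * (W + 1) * h ≤ n := by
    intro j hj
    have a1 : (j + 1) * m ≤ K * m := Nat.mul_le_mul_right _ hj
    have a2 : ((j + 1) * m : ℤ) ≤ K * m := by exact_mod_cast a1
    have a3 : (0 : ℤ) ≤ j * m := by positivity
    obtain ⟨n, k1, k2⟩ := hook (l := x0 + j * m) (r := x0 + j * m + m - 1) (h := h) (y0 := y0)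
      (W := W) (y1 := y0 + h - 1) (y3 := y0 + h + 2 * W + 1) hN rfl (by omega) (hV.mono (by omega) (by linarith) le_rfl le_rfl)
    refine ⟨n, k1, ?_⟩
    have hN' : (0 : ℝ) < N := by exact_mod_cast hN
    have k3 : (N : ℝ) * LC ω (rect (x0 + j * m) (x0 + j * m + m - 1) y0 (y0 + h - 1)) ≤
        N * n + LC ω (rect (x0 + j * m) (x0 + j * m + m - 1) y0 (y0 + h - 1)) +
          N * ((N + 1) * (W + 1) * h) := by exact_mod_cast k2
    refine le_of_mul_le_mul_left ?_ hN'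
    have e : (N : ℝ) * (1 - 1 / N) = N - 1 := by field_simp
    rw [mul_sub, ← mul_assoc, e]
    linarith
  choose! n hn1 hn2 using ex
  obtain ⟨u1, v1, a1, b1, c1⟩ := h1
  obtain ⟨u2, v2, a2, b2, c2⟩ := h2
  have main : ∀ k ≤ K, ∑ j ∈ Finset.range k, n j = 0 ∨
      St ω x0 (x0 + k * m - 1) y0 (y0 + h - 1) (y0 + h + W) (y0 + h + 2 * W + 1) W
        (∑ j ∈ Finset.range k, n j) := by
    intro k
    induction k with
    | zero => intro _; left; simp
    | succ k ih =>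
      intro hk
      have a1' : (k + 1) * m ≤ K * m := Nat.mul_le_mul_right _ hk
      have a2' : ((k + 1) * m : ℤ) ≤ K * m := by exact_mod_cast a1'
      have a3 : (0 : ℤ) ≤ k * m := by positivity
      have e : x0 + ((k + 1 : ℕ) : ℤ) * m - 1 = x0 + k * m + m - 1 := by push_cast; ring
      rw [Finset.sum_range_succ, e]
      rcases ih (by omega) with i1 | i1 <;> rcases hn1 k hk with i2 | i2
      · left; omega
      · right; rw [i1, zero_add]; exact i2.weaken (by omega) le_rfl (by omega)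
      · right; rw [i2, add_zero]; exact i1.weaken le_rfl (by omega) le_rfl
      · right
        exact i1.merge (by positivity) i2 (by omega) (by omega) (by omega) (by omega) c1
          (fun z hz => by simp only [mem_ofPred_eq] at hz; omega) a1 (by linarith)
  have fin : ∑ j ∈ Finset.range K, n j ≤
      LC ω (rect x0 (x0 + K * m - 1) y0 (y0 + h + 2 * W + 1)) + 1 := by
    rcases main K le_rfl with i1 | i1
    · omega
    · exact i1.close (by positivity) (by omega) (by omega) (by omega) c2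
        (fun z hz => by simp only [mem_ofPred_eq] at hz; omega) a2 b2
  refine (Finset.sum_le_sum fun j hj => hn2 j (Finset.mem_range.mp hj)).trans ?_
  exact_mod_cast fin

end Pool.Agent.Lib.MP_db3ceb_pr
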