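import Pool.Agent.Lib.helper98.Cross

open Set SimpleGraph

namespace Pool.Agent.Lib.MP_db3ceb_pr

open Pool.Agent.Lib.helper98

section general

variable {α : Type} {H : SimpleGraph α}

lemma path_append {a b c : α} {P : H.Walk a b} {Q : H.Walk b c} (hP : P.IsPath) (hQ : Q.IsPath)
    (h : ∀ z ∈ P.support, z ∈ Q.support → z = b) : (P.append Q).IsPath := by
  rw [Walk.isPath_def, Walk.support_append, List.nodup_append']
  refine ⟨hP.support_nodup, hQ.support_nodup.tail, fun z h1 h2 => ?_⟩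
  have h3 := h z h1 (List.mem_of_mem_tail h2)
  subst h3
  have := hQ.support_nodup
  rw [← Walk.cons_tail_support, List.nodup_cons] at this
  exact this.1 h2

lemma cycle_append {a b : α} {P : H.Walk a b} {Q : H.Walk b a} (hP : P.IsPath) (hQ : Q.IsPath)
    (h : ∀ z ∈ P.support, z ∈ Q.support → z = a ∨ z = b) (hn : 1 < Q.length) :
    (P.append Q).IsCycle := by
  refine hP.isCycle_append hQ (fun z h1 h2 => ?_) (Or.inr hn)
  rcases h z (List.mem_of_mem_tail h1) (List.mem_of_mem_tail h2) with rfl | rfl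
  · have := hP.support_nodup
    rw [← Walk.cons_tail_support, List.nodup_cons] at this
    exact this.1 h1
  · have := hQ.support_nodup
    rw [← Walk.cons_tail_support, List.nodup_cons] at this
    exact this.1 h2

lemma long_arc_aux {v : α} {w : H.Walk v v} (hw : w.IsCycle) {s t : ℕ} (hst : s < t)
    (ht : t ≤ w.length) : ∃ P : H.Walk (w.getVert t) (w.getVert s), P.IsPath ∧
      (∀ z ∈ P.support, z ∈ w.support) ∧ P.length + t = w.length + s := by
  refine ⟨(w.drop t).append (w.take s), ?_, ?_, ?_⟩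
  · rw [Walk.isPath_def, Walk.support_append, Walk.drop_support_eq_support_drop_min,
      Walk.support_take, min_eq_left ht]
    have hn := hw.support_nodup
    rw [← Walk.cons_tail_support w]
    obtain ⟨t, rfl⟩ : ∃ t', t = t' + 1 := ⟨t - 1, by omega⟩
    simp only [List.drop_succ_cons, List.take_succ_cons, List.tail_cons]
    rw [List.nodup_append_comm]
    refine List.Nodup.sublist ?_ hn
    conv_rhs => rw [← List.take_append_drop t w.support.tail]
    exact (List.take_sublist_take_left (by omega)).append_right _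
  · intro z hz
    rw [Walk.mem_support_append_iff, Walk.drop_support_eq_support_drop_min, Walk.support_take] at hz
    exact hz.elim List.mem_of_mem_drop List.mem_of_mem_take
  · rw [Walk.length_append, Walk.drop_length, Walk.take_length]
    omega

lemma long_arc {v : α} {w : H.Walk v v} (hw : w.IsCycle) {N : ℕ} (hN : 0 < N)
    (f : Fin (N + 1) → α) (hf : Function.Injective f) (hm : ∀ i, f i ∈ w.support) :
    ∃ i j, i < j ∧ ∃ P : H.Walk (f i) (f j), P.IsPath ∧ (∀ z ∈ P.support, z ∈ w.support) ∧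
      N * w.length ≤ N * P.length + w.length := by
  have hc : 0 < w.length := by have := hw.three_le_length; omega
  have ex : ∀ i, ∃ t, t < w.length ∧ w.getVert t = f i := by
    intro i
    obtain ⟨n, h1, h2⟩ := Walk.mem_support_iff_exists_getVert.mp (hm i)
    rcases h2.lt_or_eq with h | h
    · exact ⟨n, h, h1⟩
    · exact ⟨0, hc, by rw [← h1, h]; simp⟩
  choose t ht1 ht2 using ex
  obtain ⟨i, j, hij, he⟩ := Fintype.exists_ne_map_eq_of_card_lt
    (fun i => (⟨t i * N / w.length, by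
      rw [Nat.div_lt_iff_lt_mul hc, mul_comm N]
      exact Nat.mul_lt_mul_of_pos_right (ht1 i) hN⟩ : Fin N)) (by simp)
  have key : ∀ i j, t i < t j → t i * N / w.length = t j * N / w.length →
      ∃ P : H.Walk (f j) (f i), P.IsPath ∧ (∀ z ∈ P.support, z ∈ w.support) ∧
        N * w.length ≤ N * P.length + w.length := by
    intro i j h1 h2
    obtain ⟨P, a1, a2, a3⟩ := long_arc_aux hw h1 (ht1 j).le
    refine ⟨P.copy (ht2 j) (ht2 i), by simpa using a1, by simpa using a2, ?_⟩
    rw [Walk.length_copy]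
    have b1 := Nat.div_add_mod (t i * N) w.length
    have b2 := Nat.div_add_mod (t j * N) w.length
    have b3 := Nat.mod_lt (t j * N) hc
    rw [← h2] at b2
    have b4 : N * (P.length + t j) = N * (w.length + t i) := by rw [a3]
    nlinarith [Nat.zero_le (t i * N % w.length)]
  have key2 : ∀ i j, i ≠ j → t i * N / w.length = t j * N / w.length →
      ∃ P : H.Walk (f i) (f j), P.IsPath ∧ (∀ z ∈ P.support, z ∈ w.support) ∧
        N * w.length ≤ N * P.length + w.length := by
    intro i j h1 h2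
    have h3 : t i ≠ t j := fun h => h1 (hf (by rw [← ht2 i, ← ht2 j, h]))
    rcases lt_or_gt_of_ne h3 with h | h
    · obtain ⟨P, a1, a2, a3⟩ := key i j h h2
      exact ⟨P.reverse, a1.reverse, by simpa using a2, by simpa using a3⟩
    · exact key j i h h2.symm
  have he' : t i * N / w.length = t j * N / w.length := by simpa using he
  rcases lt_or_gt_of_ne hij with h | h
  · exact ⟨i, j, h, key2 i j hij he'⟩
  · exact ⟨j, i, h, key2 j i hij.symm he'.symm⟩

lemma cycle_length_le {v : α} {w : H.Walk v v} (hw : w.IsCycle) {s : Finset α}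
    (h : ∀ z ∈ w.support, z ∈ s) : w.length ≤ s.card := by
  classical
  have h1 : w.support.tail.toFinset ⊆ s := fun z hz =>
    h z (List.mem_of_mem_tail (List.mem_toFinset.mp hz))
  have h2 := Finset.card_le_card h1
  rwa [List.toFinset_card_of_nodup hw.support_nodup, List.length_tail, Walk.length_support,
    Nat.add_sub_cancel] at h2

end general

/-- the graph of open edges -/
def G (ω : V → Prop) : SimpleGraph V where
  Adj u v := adj u v ∧ ω (u + v)
  symm := ⟨fun _ _ h => ⟨h.1.symm, by rw [add_comm]; exact h.2⟩⟩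
  loopless := ⟨fun _ h => h.1.ne rfl⟩

variable {ω ω' : V → Prop} {R S : Set V} {u v : V}

lemma exists_path (h : Conn ω R u v) :
    ∃ P : (G ω).Walk u v, P.IsPath ∧ ∀ z ∈ P.support, z ∈ R := by
  classical
  have : ∃ P : (G ω).Walk u v, ∀ z ∈ P.support, z ∈ R := by
    induction h with
    | refl h => exact ⟨Walk.nil, by simpa using h⟩
    | tail _ h1 h2 h3 ih =>
      obtain ⟨P, hP⟩ := ih
      refine ⟨P.concat ⟨h1, h2⟩, fun z hz => ?_⟩
      rw [Walk.support_concat, List.mem_append, List.mem_singleton] at hz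
      exact hz.elim (hP z) fun h => h ▸ h3
  obtain ⟨P, hP⟩ := this
  exact ⟨P.bypass, P.bypass_isPath, fun z hz => hP z (P.support_bypass_subset_support hz)⟩

lemma conn_of_walk (P : (G ω).Walk u v) (h : ∀ z ∈ P.support, z ∈ R) {z : V}
    (hz : z ∈ P.support) : Conn ω R u z := by
  induction P with
  | nil =>
    rw [Walk.support_nil, List.mem_singleton] at hz
    subst hz
    exact Conn.refl (h _ (by simp))
  | cons hadj P ih =>
    rw [Walk.support_cons, List.mem_cons] at hz
    rcases hz with rfl | hz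
    · exact Conn.refl (h _ (by simp))
    · exact (Conn.single (h _ (by simp)) (h _ (by simp)) hadj.1 hadj.2).trans
        (ih (fun z hz => h z (by simp [hz])) hz)

/-- lengths of open cycles inside `R` -/
def cyc (ω : V → Prop) (R : Set V) : Set ℕ :=
  {l | ∃ (v : V) (w : (G ω).Walk v v), w.IsCycle ∧ (∀ z ∈ w.support, z ∈ R) ∧ w.length = l}

/-- length of the longest open cycle inside `R` -/
noncomputable def LC (ω : V → Prop) (R : Set V) : ℕ := sSup (cyc ω R)

lemma cyc_bdd (hR : R.Finite) : BddAbove (cyc ω R) :=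
  ⟨hR.toFinset.card, fun _ ⟨_, _, h1, h2, h3⟩ =>
    h3 ▸ cycle_length_le h1 fun z hz => by simpa using h2 z hz⟩

lemma le_LC (hR : R.Finite) {w : (G ω).Walk v v} (hw : w.IsCycle) (h : ∀ z ∈ w.support, z ∈ R) :
    w.length ≤ LC ω R := le_csSup (cyc_bdd hR) ⟨v, w, hw, h, rfl⟩

lemma LC_spec (hR : R.Finite) : LC ω R = 0 ∨ LC ω R ∈ cyc ω R := by
  rcases (cyc ω R).eq_empty_or_nonempty with h | h
  · left; simp [LC, h]
  · exact Or.inr (Nat.sSup_mem h (cyc_bdd hR))

lemma LC_le_card {s : Finset V} (h : R ⊆ s) : LC ω R ≤ s.card := by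
  rcases LC_spec (ω := ω) (s.finite_toSet.subset h) with h0 | ⟨v, w, h1, h2, h3⟩
  · omega
  · exact h3 ▸ cycle_length_le h1 fun z hz => h (h2 z hz)

lemma LC_rect_le (a c : ℤ) (m h : ℕ) : LC ω (rect a (a + m - 1) c (c + h - 1)) ≤ m * h := by
  refine (LC_le_card (rect_eq _ _ _ _).subset).trans (le_of_eq ?_)
  rw [Finset.card_product, Int.card_Icc, Int.card_Icc]
  congr 1 <;> omega

lemma LC_map {g f : V → V} (hg : ∀ a b, adj a b → adj (g a) (g b))
    (hf : ∀ a b, f (a + b) = g a + g b) (hinj : Function.Injective g) (hRf : R.Finite)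
    (hS : S.Finite) (hR : ∀ z ∈ R, g z ∈ S) : LC (fun i => ω (f i)) R ≤ LC ω S := by
  rcases LC_spec (ω := fun i => ω (f i)) hRf with h0 | ⟨v, w, h1, h2, h3⟩
  · omega
  · let φ : G (fun i => ω (f i)) →g G ω := ⟨g, fun h => ⟨hg _ _ h.1, by rw [← hf]; exact h.2⟩⟩
    have := le_LC hS (w := w.map φ) (h1.map hinj) (by
      intro z hz
      rw [Walk.support_map, List.mem_map] at hz
      obtain ⟨y, hy, rfl⟩ := hz
      exact hR y (h2 y hy))
    rwa [Walk.length_map, h3] at this

lemma LC_mono (hS : S.Finite) (h : R ⊆ S) : LC ω R ≤ LC ω S :=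
  LC_map (g := id) (f := id) (fun _ _ h => h) (fun _ _ => rfl) Function.injective_id
    (hS.subset h) hS h

lemma LC_congr_le (hR : R.Finite) (h : ∀ e ∈ Ed R, (ω e ↔ ω' e)) : LC ω R ≤ LC ω' R := by
  rcases LC_spec (ω := ω) hR with h0 | ⟨v, w, h1, h2, h3⟩
  · omega
  · have he : ∀ e ∈ w.edges, e ∈ (G ω').edgeSet := by
      intro e
      induction e using Sym2.ind with
      | h a b =>
        intro hab
        have k := w.adj_of_mem_edges hab
        exact ⟨k.1, (h _ ⟨a, h2 _ (w.fst_mem_support_of_mem_edges hab), b,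
          h2 _ (w.snd_mem_support_of_mem_edges hab), k.1, rfl⟩).mp k.2⟩
    have := le_LC hR (w := w.transfer (G ω') he) (h1.transfer he) (by simpa using h2)
    rwa [Walk.length_transfer, h3] at this

lemma LC_congr (hR : R.Finite) (h : ∀ e ∈ Ed R, (ω e ↔ ω' e)) : LC ω R = LC ω' R :=
  le_antisymm (LC_congr_le hR h) (LC_congr_le hR fun e he => (h e he).symm)

lemma conn_level {φ : V → ℤ} (hφ : ∀ a b, adj a b → φ b ≤ φ a + 1) (h : Conn ω R u v) {y : ℤ}
    (hu : φ u ≤ y) (hv : y ≤ φ v) : ∃ v', φ v' = y ∧ Conn ω (R ∩ {z | φ z ≤ y}) u v' := by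
  rcases hu.eq_or_lt with h1 | h1
  · exact ⟨u, h1, Conn.refl ⟨h.left_mem, hu⟩⟩
  obtain ⟨a, b, k1, k2, k3, k4, k5⟩ := h.first_exit' (S := {z | φ z < y}) h1 (not_lt.mpr hv)
  have k6 : φ a < y := k1.right_mem.2
  have k7 := hφ a b k2
  have k8 : y ≤ φ b := not_lt.mp k4
  have k9 : Conn ω (R ∩ {z | φ z ≤ y}) u a :=
    k1.mono fun z hz => ⟨hz.1, le_of_lt (show φ z < y from hz.2)⟩
  exact ⟨b, by omega, k9.tail k2 k3 ⟨k5.left_mem, show φ b ≤ y by omega⟩⟩

lemma sub_cols (h : Conn ω R u v) {s t : ℤ} (hst : s ≤ t) (hu : u.1 ≤ s) (hv : t ≤ v.1) :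
    ∃ u' v' : V, u'.1 = s ∧ v'.1 = t ∧ Conn ω (R ∩ {z | s ≤ z.1 ∧ z.1 ≤ t}) u' v' := by
  obtain ⟨v', h1, k1⟩ := conn_level (φ := fun z => z.1) (fun a b h => by unfold adj at h; omega) h
    (hu.trans hst) hv
  obtain ⟨u', h2, k2⟩ := conn_level (φ := fun z => -z.1) (fun a b h => by unfold adj at h; omega)
    k1.symm (y := -s) (by omega) (by omega)
  refine ⟨u', v', by omega, h1, k2.symm.mono fun z hz => ⟨hz.1.1, ?_, hz.1.2⟩⟩
  have := hz.2
  simp only [mem_ofPred_eq] at this
  omega

lemma sub_rows (h : Conn ω R u v) {s t : ℤ} (hst : s ≤ t) (hu : u.2 ≤ s) (hv : t ≤ v.2) :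
    ∃ u' v' : V, u'.2 = s ∧ v'.2 = t ∧ Conn ω (R ∩ {z | s ≤ z.2 ∧ z.2 ≤ t}) u' v' := by
  obtain ⟨v', h1, k1⟩ := conn_level (φ := fun z => z.2) (fun a b h => by unfold adj at h; omega) h
    (hu.trans hst) hv
  obtain ⟨u', h2, k2⟩ := conn_level (φ := fun z => -z.2) (fun a b h => by unfold adj at h; omega)
    k1.symm (y := -s) (by omega) (by omega)
  refine ⟨u', v', by omega, h1, k2.symm.mono fun z hz => ⟨hz.1.1, ?_, hz.1.2⟩⟩
  have := hz.2
  simp only [mem_ofPred_eq] at this
  omega

end Pool.Agent.Lib.MP_db3ceb_pr
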