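import Pool.Agent.Lib.MP_db3ceb_pr.Asym

open Set MeasureTheory ProbabilityTheory Filter Topology

namespace Pool.Agent.Lib.MP_db3ceb_pr

open Pool.Agent.Lib.helper98

variable {p : ℝ}

lemma poly_decay {q : ℝ} (h0 : 0 ≤ q) (h1 : q < 1 / 2) :
    ∃ C : ℝ, 0 ≤ C ∧ ∀ s : ℕ, (s : ℝ) ^ 33 * θ q s ≤ C := by
  obtain ⟨r, L, r0, r1, hL, h⟩ := exp_decay h0 h1
  obtain ⟨B, hB⟩ := (tendsto_pow_const_mul_const_pow_of_abs_lt_one 33
    (show |r| < 1 by rwa [abs_of_nonneg r0])).bddAbove_range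
  have hB' : ∀ k : ℕ, (k : ℝ) ^ 33 * r ^ k ≤ B := fun k => hB ⟨k, rfl⟩
  have hB0 : 0 ≤ B := le_trans (by simp) (hB' 0)
  refine ⟨L ^ 33 * (2 ^ 33 * B + 1), by positivity, fun s => ?_⟩
  have a1 : s ≤ L * (s / L + 1) := (Nat.lt_mul_div_succ s hL).le
  have a2 : (s : ℝ) ≤ L * ((s / L : ℕ) + 1) := by exact_mod_cast a1
  have a3 := h s
  generalize s / L = k at *
  have a4 : ((k : ℝ) + 1) ^ 33 * r ^ k ≤ 2 ^ 33 * B + 1 := by
    rcases Nat.eq_zero_or_pos k with rfl | hk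
    · simp only [Nat.cast_zero, zero_add, one_pow, pow_zero, mul_one]
      have : 0 ≤ 2 ^ 33 * B := by positivity
      linarith
    · have b1 : (1 : ℝ) ≤ k := by exact_mod_cast hk
      have b2 : ((k : ℝ) + 1) ^ 33 ≤ (2 * k) ^ 33 := by gcongr; linarith
      have b3 := hB' k
      calc ((k : ℝ) + 1) ^ 33 * r ^ k ≤ (2 * k) ^ 33 * r ^ k := by gcongr
        _ = 2 ^ 33 * (k ^ 33 * r ^ k) := by rw [mul_pow, mul_assoc]
        _ ≤ 2 ^ 33 * B := by gcongr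
        _ ≤ _ := by linarith
  calc (s : ℝ) ^ 33 * θ q s ≤ (L * (k + 1)) ^ 33 * r ^ k := by
        gcongr; exact θ_nonneg _ _
    _ = L ^ 33 * ((k + 1) ^ 33 * r ^ k) := by rw [mul_pow, mul_assoc]
    _ ≤ _ := by gcongr

/-- fourth root -/
def tt (m : ℕ) : ℕ := Nat.sqrt (Nat.sqrt m)

lemma tt_le (m : ℕ) : tt m ^ 4 ≤ m :=
  calc tt m ^ 4 = (tt m ^ 2) ^ 2 := by ring
    _ ≤ Nat.sqrt m ^ 2 := Nat.pow_le_pow_left (Nat.sqrt_le' _) _
    _ ≤ m := Nat.sqrt_le' _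

lemma lt_tt (m : ℕ) : m < (tt m + 1) ^ 4 :=
  calc m < (Nat.sqrt m + 1) ^ 2 := Nat.lt_succ_sqrt' _
    _ ≤ ((tt m + 1) ^ 2) ^ 2 := Nat.pow_le_pow_left (Nat.lt_succ_sqrt' _) _
    _ = _ := by ring

lemma tt_mono {m n : ℕ} (h : m ≤ n) : tt m ≤ tt n := Nat.sqrt_le_sqrt (Nat.sqrt_le_sqrt h)

lemma tendsto_sqrt : Tendsto Nat.sqrt atTop atTop :=
  tendsto_atTop_atTop.mpr fun b => ⟨b ^ 2, fun _ h => Nat.le_sqrt'.mpr h⟩

lemma tendsto_tt : Tendsto tt atTop atTop := tendsto_sqrt.comp tendsto_sqrt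

/-- average deficiency of the cells -/
noncomputable def AV (n m : ℕ) (ω : V → Prop) : ℝ :=
  SD m (m + 2 * tt m + 2) (n / (m + 2 * tt m + 2)) ω / (n / (m + 2 * tt m + 2) : ℕ) ^ 2

lemma AV_int (n m : ℕ) : Integrable (AV n m) (PP V p) :=
  ((SD_memLp _ _ _).integrable one_le_two).div_const _

lemma tt_le_K {n m : ℕ} (ht : 2 ≤ tt m) (hn : m ^ 2 ≤ n) : tt m ≤ n / (m + 2 * tt m + 2) := by
  have h := tt_le m
  rw [Nat.le_div_iff_mul_le (by omega)]
  generalize tt m = t at *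
  have a0 : t ^ 3 ≤ m := (Nat.pow_le_pow_right (by omega) (by norm_num)).trans h
  have a1 : 4 * t ≤ m := by
    have : 2 ^ 2 * t ≤ t ^ 2 * t := by gcongr
    nlinarith
  nlinarith

lemma pt_bound {n m : ℕ} (ht : 2 ≤ tt m) (hn : m ^ 2 ≤ n) (ω : V → Prop) :
    Df n 1 1 ω ≤ AV n m ω + 30 / tt m + (Good n (tt m))ᶜ.indicator 1 ω := by
  by_cases h : ω ∈ Good n (tt m)
  · rw [indicator_of_notMem (not_not.mpr h), add_zero]
    exact pointwise ht (tt_le m) hn h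
  · rw [indicator_of_mem h, Pi.one_apply]
    have h1 := (Df_mem n 1 1 ω).2
    have h2 : 0 ≤ AV n m ω := div_nonneg (SD_nonneg _ _ _ _) (by positivity)
    have h3 : (0 : ℝ) ≤ 30 / tt m := by positivity
    linarith

lemma bad_bound (hp0 : 0 ≤ p) (hp1 : p ≤ 1) {C : ℝ} (hC : ∀ s : ℕ, (s : ℝ) ^ 33 * θ (1 - p) s ≤ C)
    {n m : ℕ} (ht : 2 ≤ tt m) (hn : m ^ 2 ≤ n) (hn' : n ≤ m ^ 4) :
    ∫ ω, (Good n (tt m))ᶜ.indicator 1 ω ∂PP V p ≤ 2 * C / tt m := by
  rw [integral_indicator_one (measurableSet_Good _ _).compl]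
  have h0 := tt_le m
  have h1 := lt_tt m
  generalize tt m = t at *
  have hm : 0 < m := lt_of_lt_of_le (by positivity) h0
  refine (pr_bad hp0 hp1 (lt_of_lt_of_le (by positivity) hn) t).trans ?_
  have h2 := hC (t + 1)
  have h3 := θ_nonneg (1 - p) (t + 1 : ℕ)
  have h4 : n ^ 2 * t ≤ (t + 1) ^ 33 :=
    calc n ^ 2 * t ≤ (((t + 1) ^ 4) ^ 4) ^ 2 * (t + 1) :=
          Nat.mul_le_mul (Nat.pow_le_pow_left (hn'.trans (Nat.pow_le_pow_left h1.le _)) _)
            (Nat.le_succ t)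
      _ = _ := by rw [← pow_mul, ← pow_mul, ← pow_succ]
  have h5 : (n : ℝ) ^ 2 * t ≤ ((t + 1 : ℕ) : ℝ) ^ 33 := by exact_mod_cast h4
  rw [le_div_iff₀ (by exact_mod_cast (show 0 < t by omega))]
  have h6 := (mul_le_mul_of_nonneg_right h5 h3).trans h2
  generalize θ (1 - p) (t + 1 : ℕ) = x at *
  calc 2 * (n : ℝ) ^ 2 * x * t = 2 * (n ^ 2 * t * x) := by ring
    _ ≤ _ := by gcongr

lemma ind_int (n t : ℕ) : Integrable ((Good n t)ᶜ.indicator (1 : (V → Prop) → ℝ)) (PP V p) :=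
  (integrable_const 1).indicator (measurableSet_Good _ _).compl

lemma step (hp0 : 0 ≤ p) (hp1 : p ≤ 1) {C : ℝ} (hC : ∀ s : ℕ, (s : ℝ) ^ 33 * θ (1 - p) s ≤ C)
    {n m : ℕ} (ht : 2 ≤ tt m) (hn : m ^ 2 ≤ n) (hn' : n ≤ m ^ 4) :
    bb p n ≤ bb p m + (30 + 2 * C) / tt m := by
  have i1 : Integrable (fun ω => AV n m ω + 30 / tt m) (PP V p) :=
    (AV_int n m).add (integrable_const _)
  have h1 := integral_mono (μ := PP V p) (Df_int n 1 1) (i1.add (ind_int n (tt m))) (pt_bound ht hn)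
  simp only [Pi.add_apply] at h1
  rw [integral_add i1 (ind_int n (tt m)),
    integral_add (AV_int n m) (integrable_const _), integral_const] at h1
  have h2 := bad_bound hp0 hp1 hC ht hn hn'
  have hK : (0 : ℝ) < (n / (m + 2 * tt m + 2) : ℕ) := by
    exact_mod_cast lt_of_lt_of_le (by omega) (tt_le_K ht hn)
  have h3 : ∫ ω, AV n m ω ∂PP V p = bb p m := by
    simp only [AV]
    rw [integral_div, int_SD]
    field_simp
  simp only [probReal_univ, smul_eq_mul, one_mul] at h1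
  rw [add_div, bb]
  linarith

lemma chain {b : ℕ → ℝ} {E : ℝ} (hE : 0 ≤ E)
    (h : ∀ n m, 2 ≤ tt m → m ^ 2 ≤ n → n ≤ m ^ 4 → b n ≤ b m + E / tt m) {m : ℕ} (ht : 2 ≤ tt m)
    (n : ℕ) : m ^ 2 ≤ n → b n + E / tt (Nat.sqrt n) ≤ b m + 2 * (E / tt m) := by
  induction n using Nat.strong_induction_on with
  | _ n ih =>
    intro hn
    have hm : 16 ≤ m := le_trans (Nat.pow_le_pow_left ht 4) (tt_le m)
    have a1 : m ≤ Nat.sqrt n := Nat.le_sqrt'.mpr hn
    by_cases hn' : n ≤ m ^ 4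
    · have a2 := h n m ht hn hn'
      have a3 : E / tt (Nat.sqrt n) ≤ E / tt m :=
        div_le_div_of_nonneg_left hE (by exact_mod_cast (show 0 < tt m by omega))
          (by exact_mod_cast tt_mono a1)
      linarith
    · have a2 : m ^ 2 ≤ Nat.sqrt n := Nat.le_sqrt'.mpr (by rw [← pow_mul]; exact (not_le.mp hn').le)
      have a3 := ih (Nat.sqrt n) (Nat.sqrt_lt_self (by nlinarith)) a2
      have a4 : n ≤ Nat.sqrt n ^ 4 := by
        have b1 := Nat.lt_succ_sqrt' n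
        have b2 : Nat.sqrt n + 1 ≤ Nat.sqrt n ^ 2 := by nlinarith
        calc n ≤ (Nat.sqrt n + 1) ^ 2 := b1.le
          _ ≤ (Nat.sqrt n ^ 2) ^ 2 := by gcongr
          _ = _ := by ring
      have a5 := h n (Nat.sqrt n) (ht.trans (tt_mono a1)) (Nat.sqrt_le' n) a4
      have a6 : 2 ≤ tt (Nat.sqrt (Nat.sqrt n)) := ht.trans (tt_mono (Nat.le_sqrt'.mpr a2))
      have a7 : tt (Nat.sqrt (Nat.sqrt n)) ^ 2 ≤ tt (Nat.sqrt n) := Nat.sqrt_le' _
      have a8 : 2 * tt (Nat.sqrt (Nat.sqrt n)) ≤ tt (Nat.sqrt n) := by nlinarith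
      have a9 : E / tt (Nat.sqrt n) ≤ E / (2 * tt (Nat.sqrt (Nat.sqrt n))) :=
        div_le_div_of_nonneg_left hE (by exact_mod_cast (show 0 < 2 * tt _ by omega))
          (by exact_mod_cast a8)
      have e : E / (2 * tt (Nat.sqrt (Nat.sqrt n))) = E / tt (Nat.sqrt (Nat.sqrt n)) / 2 := by ring
      linarith

lemma tendsto_div_tt (E : ℝ) : Tendsto (fun m => E / tt m) atTop (𝓝 0) :=
  (tendsto_const_div_atTop_nhds_zero_nat E).comp tendsto_tt

lemma conv {b : ℕ → ℝ} {E : ℝ} (hE : 0 ≤ E) (hb : ∀ n, b n ∈ Icc (0 : ℝ) 1)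
    (h : ∀ n m, 2 ≤ tt m → m ^ 2 ≤ n → n ≤ m ^ 4 → b n ≤ b m + E / tt m) :
    Tendsto b atTop (𝓝 (liminf b atTop)) := by
  have b1 : IsBoundedUnder (· ≥ ·) atTop b := isBoundedUnder_of ⟨0, fun n => (hb n).1⟩
  have b2 : IsBoundedUnder (· ≤ ·) atTop b := isBoundedUnder_of ⟨1, fun n => (hb n).2⟩
  refine tendsto_order.mpr ⟨fun a ha => eventually_lt_of_lt_liminf ha b1, fun a ha => ?_⟩
  set ε := (a - liminf b atTop) / 3 with hε
  have hε0 : 0 < ε := by linarith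
  have f1 : ∃ᶠ m in atTop, b m < liminf b atTop + ε :=
    frequently_lt_of_liminf_lt b2.isCoboundedUnder_ge (by linarith)
  obtain ⟨m, k1, k2, k3⟩ := (f1.and_eventually (((tendsto_div_tt E).eventually_lt_const hε0).and
    (tendsto_tt.eventually_ge_atTop 2))).exists
  filter_upwards [eventually_ge_atTop (m ^ 2)] with n hn
  have c1 := chain hE h k3 n hn
  have c2 : (0 : ℝ) ≤ E / tt (Nat.sqrt n) := by positivity
  linarith

theorem lln (hp : 1 / 2 < p) (hp1 : p ≤ 1) : ∃ κ : ℝ, ∀ ε : ℝ, 0 < ε →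
    Tendsto (fun n : ℕ => pr p {ω | ε ≤ |(LC ω (rect 1 n 1 n) : ℝ) / n ^ 2 - κ|}) atTop (𝓝 0) := by
  have hp0 : 0 ≤ p := by linarith
  obtain ⟨C, hC0, hC⟩ := poly_decay (q := 1 - p) (by linarith) (by linarith)
  have hb := conv (b := bb p) (E := 30 + 2 * C) (by positivity) (bb_mem p)
    fun n m => step hp0 hp1 hC
  generalize liminf (bb p) atTop = β at hb
  refine ⟨1 - β, fun ε hε => ?_⟩
  have e : ∀ (n : ℕ) ω, |(LC ω (rect 1 n 1 n) : ℝ) / n ^ 2 - (1 - β)| = |Df n 1 1 ω - β| := by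
    intro n ω
    rw [Df, show (1 : ℤ) + n - 1 = n by ring, ← abs_neg]
    congr 1; ring
  simp only [e]
  have lim : Tendsto (fun n : ℕ => (2 * ((32 + 2 * C) / tt (Nat.sqrt n) +
      |bb p (Nat.sqrt n) - β|) - (bb p n - β)) / ε) atTop (𝓝 0) := by
    have l1 := (tendsto_div_tt (32 + 2 * C)).comp tendsto_sqrt
    have l2 := ((hb.comp tendsto_sqrt).sub_const β).abs
    have l3 := ((((l1.add l2).const_mul 2).sub (hb.sub_const β))).div_const ε
    simpa using l3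
  refine squeeze_zero' (Eventually.of_forall fun _ => pr_nonneg _ _) ?_ lim
  filter_upwards [(tendsto_tt.comp tendsto_sqrt).eventually_ge_atTop 2] with n ht
  replace ht : 2 ≤ tt (Nat.sqrt n) := ht
  have hn := Nat.sqrt_le' n
  have hn' : n ≤ Nat.sqrt n ^ 4 := by
    have b0 : 16 ≤ Nat.sqrt n := le_trans (Nat.pow_le_pow_left ht 4) (tt_le _)
    have b1 := Nat.lt_succ_sqrt' n
    have b2 : Nat.sqrt n + 1 ≤ Nat.sqrt n ^ 2 := by nlinarith
    calc n ≤ (Nat.sqrt n + 1) ^ 2 := b1.le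
      _ ≤ (Nat.sqrt n ^ 2) ^ 2 := by gcongr
      _ = _ := by ring
  generalize Nat.sqrt n = m at *
  rw [le_div_iff₀ hε, mul_comm]
  have i1 : Integrable (fun ω => Df n 1 1 ω - β) (PP V p) := (Df_int _ _ _).sub (integrable_const _)
  have i2 : Integrable (fun ω => |AV n m ω - bb p m|) (PP V p) :=
    ((AV_int _ _).sub (integrable_const _)).abs
  refine (mul_meas_ge_le_integral_of_nonneg (ae_of_all _ fun ω => abs_nonneg _) i1.abs ε).trans ?_
  have i3 : Integrable (fun ω => |AV n m ω - bb p m| + (Good n (tt m))ᶜ.indicator 1 ω) (PP V p) :=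
    i2.add (ind_int n (tt m))
  have i4 : Integrable (fun ω => 2 * (|AV n m ω - bb p m| + (Good n (tt m))ᶜ.indicator 1 ω +
      (30 / tt m + |bb p m - β|))) (PP V p) := (i3.add (integrable_const _)).const_mul 2
  have h1 := integral_mono (μ := PP V p) i1.abs (i4.sub i1) fun ω => by
    have a1 := pt_bound ht hn ω
    have a2 := le_abs_self (AV n m ω - bb p m)
    have a3 := le_abs_self (bb p m - β)
    have a4 := abs_nonneg (AV n m ω - bb p m)
    have a5 := abs_nonneg (bb p m - β)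
    have a6 : (0 : ℝ) ≤ 30 / tt m := by positivity
    have a7 : 0 ≤ (Good n (tt m))ᶜ.indicator (1 : (V → Prop) → ℝ) ω :=
      indicator_nonneg (fun _ _ => zero_le_one) _
    simp only [Pi.sub_apply]
    rw [abs_le]
    constructor <;> linarith
  simp only [Pi.sub_apply] at h1
  rw [integral_sub i4 i1, integral_const_mul, integral_add i3 (integrable_const _),
    integral_add i2 (ind_int n (tt m)), integral_sub (Df_int _ _ _) (integrable_const _)] at h1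
  simp only [integral_const, probReal_univ, smul_eq_mul, one_mul] at h1
  have h2 := bad_bound hp0 hp1 hC ht hn hn'
  have hK := tt_le_K ht hn
  have h3 := int_abs_SD (p := p) (m := m) (m' := m + 2 * tt m + 2) (by omega)
    (lt_of_lt_of_le (by omega) hK)
  have h4 : (2 : ℝ) / (n / (m + 2 * tt m + 2) : ℕ) ≤ 2 / tt m :=
    div_le_div_of_nonneg_left (by norm_num) (by exact_mod_cast (show 0 < tt m by omega))
      (by exact_mod_cast hK)
  have e2 : (32 + 2 * C) / tt m = 2 / tt m + 30 / tt m + 2 * C / tt m := by ring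
  have h5 : ∫ ω, |AV n m ω - bb p m| ∂PP V p ≤ 2 / tt m := h3.trans h4
  have h6 : ∫ ω, Df n 1 1 ω ∂PP V p = bb p n := rfl
  linarith

end Pool.Agent.Lib.MP_db3ceb_pr
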